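import Pool.Agent.Run7.h893.TO.Stab
import Pool.Agent.Run7.h893.HO.Odd
import Pool.Agent.Y123.GN.C6

/-!
# Self-dual hypergeometric motives: all subtorsors are stable, for almost all tuples of fibres
-/

set_option autoImplicit false
set_option linter.unusedSectionVars false

open Matrix

namespace Run7.h893.TO

open Pool.Agent.TH127.PT Pool.Agent.Y123.ST Pool.Agent.Y123.SR Pool.Agent.Y113 Pool.Agent.Y113.GG Pool.Agent.Y123.GN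
open Pool.Agent.Y119.HZ (Jx pw Yt)
open Pool.Agent.Y119.HY (cm)
open Run7.h893.HO

section
variable {B₀ : Type} [Fintype B₀] [DecidableEq B₀] {k : ℕ} {n : Fin k → ℕ} {K : Subfield ℂ}

/-- the form on the Betti side -/
noncomputable def PO (J0 : ∀ i, Matrix (Fin (n i)) (Fin (n i)) ℂ) (Ω : ∀ i, Matrix (Fin (n i)) (Fin (n i)) ℂ) (i : Fin k) :
    Matrix (Fin (n i)) (Fin (n i)) ℂ := (Ω i)ᵀ * J0 i * Ω i

variable {Q : Fin k → Polynomial ℚ} {J0 : ∀ i, Matrix (Fin (n i)) (Fin (n i)) ℂ} {B : ∀ i, ℂ → Matrix (Fin (n i)) (Fin (n i)) ℂ}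

theorem PO_det (hQ : ∀ i, Fam (n i) (Q i) (J0 i) (B i)) {Ω : ∀ i, Matrix (Fin (n i)) (Fin (n i)) ℂ}
    (hΩ : ∀ i, IsUnit (Ω i)) (i : Fin k) : (PO J0 Ω i).det ≠ 0 := by
  unfold PO
  have h1 : (Ω i).det ≠ 0 := ((Matrix.isUnit_iff_isUnit_det _).1 (hΩ i)).ne_zero
  rw [det_mul, det_mul, det_transpose]
  exact mul_ne_zero (mul_ne_zero h1 (hQ i).det) h1

theorem cM_form' (hQ : ∀ i, Fam (n i) (Q i) (J0 i) (B i)) (Ω : ∀ i, Matrix (Fin (n i)) (Fin (n i)) ℂ)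
    {t : Fin k → ℕ} (ht : ∀ i, 2 ≤ t i) (i : Fin k) :
    cM Q Ω t i * B i (((1 / (t i : ℝ) : ℝ)) : ℂ) * (cM Q Ω t i)ᵀ = PO J0 Ω i := by
  unfold cM PO
  rw [transpose_transpose, transpose_mul]
  calc (Ω i)ᵀ * (Yt (n i) (Q i) (t i))ᵀ * B i (((1 / (t i : ℝ) : ℝ)) : ℂ) * (Yt (n i) (Q i) (t i) * Ω i) =
      (Ω i)ᵀ * ((Yt (n i) (Q i) (t i))ᵀ * B i (((1 / (t i : ℝ) : ℝ)) : ℂ) * Yt (n i) (Q i) (t i)) * Ω i := by
        simp only [Matrix.mul_assoc]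
    _ = _ := by rw [(hQ i).Yt_form (ht i)]

theorem cM_unit' (hQ : ∀ i, Fam (n i) (Q i) (J0 i) (B i)) {Ω : ∀ i, Matrix (Fin (n i)) (Fin (n i)) ℂ}
    (hΩ : ∀ i, IsUnit (Ω i)) {t : Fin k → ℕ} (ht : ∀ i, 2 ≤ t i) (i : Fin k) : IsUnit (cM Q Ω t i) := by
  have h1 := congrArg Matrix.det (cM_form' hQ Ω ht i)
  rw [det_mul, det_mul] at h1
  rw [Matrix.isUnit_iff_isUnit_det, isUnit_iff_ne_zero]
  intro h0
  rw [h0, zero_mul, zero_mul] at h1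
  exact PO_det hQ hΩ i h1.symm

/-- the subtorsors are stable -/
def StaO (K : Subfield ℂ) (c₀ : Matrix B₀ B₀ ℂ) (Q : Fin k → Polynomial ℚ) (J0 : ∀ i, Matrix (Fin (n i)) (Fin (n i)) ℂ)
    (Ω : ∀ i, Matrix (Fin (n i)) (Fin (n i)) ℂ) (t : Fin k → ℕ) : Prop :=
  ∀ T : Set (Matrix (IM B₀ n) (IM B₀ n) ℂ), IsSubtorsor K T → tot c₀ Q Ω t ∈ T →
    ∀ (a : Fin k → ℂ) (g : ∀ i, Matrix (Fin (n i)) (Fin (n i)) ℂ), (∀ i, SI (PO J0 Ω i) (g i)) →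
      ∀ x ∈ T, EM 1 (fun i => uu (a i)) g * x ∈ T

end

/-- **All subtorsors are stable under the isometries, for almost all tuples.** -/
theorem hyp_stab' (k D r : ℕ) (n : Fin k → ℕ) (Q : Fin k → Polynomial ℚ) (J0 : ∀ i, Matrix (Fin (n i)) (Fin (n i)) ℂ)
    (B : ∀ i, ℂ → Matrix (Fin (n i)) (Fin (n i)) ℂ) (hQ : ∀ i, Fam (n i) (Q i) (J0 i) (B i))
    (hJ : ∀ i, (J0 i)ᵀ = -J0 i ∨ ((J0 i)ᵀ = J0 i ∧ 3 ≤ n i)) :
    ∃ c C : ℝ, 0 < c ∧ 0 ≤ C ∧ ∀ K : Subfield ℂ, FiniteDimensional ℚ K → Module.finrank ℚ K ≤ D →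
      ∀ (B₀ : Type) [Fintype B₀] [DecidableEq B₀] (c₀ : Matrix B₀ B₀ ℂ), Fintype.card B₀ ≤ r → IsUnit c₀ →
      ∀ Ω : (∀ i, Matrix (Fin (n i)) (Fin (n i)) ℂ), (∀ i, IsUnit (Ω i)) → ∀ (x : Fin k → ℕ) (N : ℕ), (∀ i, 1 ≤ x i) →
      1 ≤ N → ∀ S : Finset (Fin k → ℕ), (∀ t ∈ S, (∀ i, x i < t i ∧ t i ≤ x i + N) ∧ ¬ StaO K c₀ Q J0 Ω t) →
      (S.card : ℝ) ≤ C * (N : ℝ) ^ (k - 1) * ∑ i, (1 + N / ((x i : ℝ) + N) ^ c) := by
  classical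
  obtain ⟨d, hd⟩ := stab' (r + ∑ i, (2 + n i))
  obtain ⟨c, C, hc, hC, hmain⟩ := tuples_log k d ((D + (r * r + 1) + 1) ^ (d + 1)) n Q J0 B hQ
  refine ⟨c, C, hc, hC, ?_⟩
  intro K hKf hKD B₀ _ _ c₀ hr hc₀ Ω hΩ x N hx hN S hS
  obtain ⟨W, hW1, hW2, hKW, hW3⟩ := exists_W' K (fun o : Option (B₀ × B₀) => o.elim tpi fun b => c₀ b.1 b.2)
  have hKalg : ∀ x ∈ K, IsAlgebraic ℚ x := by
    intro x hx
    have : NumberField K := { to_charZero := inferInstance, to_finiteDimensional := hKf }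
    have h6 : IsAlgebraic ℚ (⟨x, hx⟩ : K) := Algebra.IsAlgebraic.isAlgebraic _
    exact h6.algebraMap (A := ℂ)
  have hKc : (K : Set ℂ).Countable := by
    have h1 : ({x : ℂ | IsAlgebraic ℚ x} : Set ℂ).Countable := Algebraic.countable ℚ ℂ
    exact h1.mono fun x hx => hKalg x hx
  obtain ⟨hp1, hp2⟩ := finrank_pow_le W (d + 1)
  have hWD : Module.finrank ℚ W ≤ D + (r * r + 1) + 1 := by
    refine hW2.trans ?_
    rw [Fintype.card_option, Fintype.card_prod]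
    have := Nat.mul_le_mul hr hr
    omega
  have hUG : ∀ i, ∃ 𝒩, UG (SI (PO J0 Ω i)) 𝒩 := by
    intro i
    rcases hJ i with h | ⟨h, h3⟩
    · refine ⟨_, UG.skew ?_ (PO_det hQ hΩ i)⟩
      unfold PO
      rw [transpose_mul, transpose_mul, transpose_transpose, h, Matrix.neg_mul, Matrix.mul_neg, Matrix.mul_assoc]
    · refine ⟨_, UG.symm ?_ (PO_det hQ hΩ i) h3⟩
      unfold PO
      rw [transpose_mul, transpose_mul, transpose_transpose, h, Matrix.mul_assoc]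
  choose 𝒩 h𝒩 using hUG
  refine hmain (W ^ (d + 1)) (hp2.trans (Nat.pow_le_pow_left hWD _)) Ω x N hx hN S fun t ht => ?_
  obtain ⟨hbox, hSt⟩ := hS t ht
  refine ⟨hbox, ?_⟩
  by_contra hcon
  apply hSt
  have ht2 : ∀ i, 2 ≤ t i := fun i => by
    have := (hbox i).1
    have := hx i
    omega
  intro T hT hcT
  refine hd B₀ k n ?_ K hKc T c₀ _ tpi (cM Q Ω t) (fun i => SI (PO J0 Ω i)) 𝒩 hT hc₀ (tpi_tr hKalg) (cM_unit' hQ hΩ ht2)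
    h𝒩 hcT ?_
  · rw [card_IM]
    exact Nat.add_le_add_right hr _
  · intro a g hg
    have hcM : cM Q Ω t = fun i => (Yt (n i) (Q i) (t i) * Ω i)ᵀ := rfl
    have hgc : (fun i => g i * cM Q Ω t i) = fun i => (Yt (n i) (Q i) (t i) * Ω i * (g i)ᵀ)ᵀ := by
      funext i
      rw [transpose_mul, transpose_transpose]
      rfl
    rw [hgc, hcM]
    have hΩi : ∀ i, (Ω i)⁻¹ * Ω i = 1 := fun i => nonsing_inv_mul _ ((Matrix.isUnit_iff_isUnit_det _).1 (hΩ i))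
    have hΩi' : ∀ i, Ω i * (Ω i)⁻¹ = 1 := fun i => mul_nonsing_inv _ ((Matrix.isUnit_iff_isUnit_det _).1 (hΩ i))
    refine Rl_of hKW (PhiM_DC (hKW 1 K.one_mem) (fun a b => hW3 (some (a, b))) (hW3 none)) (y := pw (fun i => ((Real.log (t i) : ℝ) : ℂ))
      fun i => Yt (n i) (Q i) (t i) * Ω i) (y' := pw (fun i => ((Real.log (t i) : ℝ) : ℂ) + a i * tpi)
      fun i => (Yt (n i) (Q i) (t i) * Ω i * (g i)ᵀ * (Ω i)⁻¹) * Ω i) ?_ (fun b => PhiM_eval c₀ tpi _ _ b) (fun b => ?_)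
    · intro P hPd hPV hP0
      by_contra hne
      refine hcon ⟨P, hPd, hPV, hP0, _, _, fun i => ?_, hne⟩
      have hiso : (g i)ᵀᵀ = g i := transpose_transpose _
      have hPi := (hg i).1
      unfold PO at hPi
      have e1 : (Yt (n i) (Q i) (t i) * Ω i * (g i)ᵀ * (Ω i)⁻¹)ᵀ = ((Ω i)⁻¹)ᵀ * (g i * ((Ω i)ᵀ * (Yt (n i) (Q i) (t i))ᵀ)) := by
        rw [transpose_mul, transpose_mul, transpose_mul, hiso]
      have e2 : ((Ω i)⁻¹)ᵀ * (Ω i)ᵀ = 1 := by rw [← transpose_mul, hΩi', transpose_one]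
      rw [e1]
      calc ((Ω i)⁻¹)ᵀ * (g i * ((Ω i)ᵀ * (Yt (n i) (Q i) (t i))ᵀ)) * B i (((1 / (t i : ℝ) : ℝ)) : ℂ) *
            (Yt (n i) (Q i) (t i) * Ω i * (g i)ᵀ * (Ω i)⁻¹) =
          ((Ω i)⁻¹)ᵀ * (g i * ((Ω i)ᵀ * ((Yt (n i) (Q i) (t i))ᵀ * B i (((1 / (t i : ℝ) : ℝ)) : ℂ) *
            Yt (n i) (Q i) (t i)) * Ω i) * (g i)ᵀ) * (Ω i)⁻¹ := by simp only [Matrix.mul_assoc]
        _ = (((Ω i)⁻¹)ᵀ * (Ω i)ᵀ) * J0 i * (Ω i * (Ω i)⁻¹) := by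
            rw [(hQ i).Yt_form (ht2 i), hPi]
            simp only [Matrix.mul_assoc]
        _ = J0 i := by rw [e2, hΩi', Matrix.one_mul, Matrix.mul_one]
    · have h1 := PhiM_eval c₀ tpi (fun i => ((Real.log (t i) : ℝ) : ℂ) + a i * tpi)
        (fun i => (Yt (n i) (Q i) (t i) * Ω i * (g i)ᵀ * (Ω i)⁻¹) * Ω i) b
      refine Eq.trans ?_ h1
      have h2 : (fun i => (Yt (n i) (Q i) (t i) * Ω i * (g i)ᵀ)ᵀ) =
          fun i => (Yt (n i) (Q i) (t i) * Ω i * (g i)ᵀ * (Ω i)⁻¹ * Ω i)ᵀ := by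
        funext i
        rw [Matrix.mul_assoc _ (Ω i)⁻¹, hΩi, Matrix.mul_one]
      rw [h2]

end Run7.h893.TO
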