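import Pool.Agent.Run7.h893.HO.Grp

/-!
# The special orthogonal group is generated by unipotent elements

`J` is an invertible symmetric matrix of size `n ≥ 3`. For an isotropic vector `u` and a vector `w` orthogonal to `u` the
matrix `nu J u w : z ↦ (u, z) w - (w, z) u` is a nilpotent element of the Lie algebra. These elements are in the span of their
commutators, and a monoid which contains their exponentials contains all isometries of determinant `1`.
-/

set_option autoImplicit false
set_option linter.unusedSimpArgs false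

open Matrix Pool.Agent.Y119.HY

namespace Run7.h893.TO

open Run7.h893.HO

variable {n : ℕ} {J : Matrix (Fin n) (Fin n) ℂ}

/-- the element `u ∧ w` of the Lie algebra -/
def nu (J : Matrix (Fin n) (Fin n) ℂ) (u w : Fin n → ℂ) : Matrix (Fin n) (Fin n) ℂ :=
  vecMulVec w (u ᵥ* J) - vecMulVec u (w ᵥ* J)

lemma nu_mulVec (u w z : Fin n → ℂ) : nu J u w *ᵥ z = om J u z • w - om J w z • u := by
  unfold nu
  rw [Matrix.sub_mulVec, vecMulVec_mulVec, vecMulVec_mulVec, ← om_eq, ← om_eq, op_smul_eq_smul, op_smul_eq_smul]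

lemma mat_ext {A B : Matrix (Fin n) (Fin n) ℂ} (h : ∀ z, A *ᵥ z = B *ᵥ z) : A = B := by
  apply Matrix.toLin'.injective
  refine LinearMap.ext fun z => ?_
  rw [toLin'_apply, toLin'_apply, h]

lemma om_sub (u v w : Fin n → ℂ) : om J u (v - w) = om J u v - om J u w := by
  unfold om; rw [mulVec_sub, dotProduct_sub]

lemma om_sub_left (u v w : Fin n → ℂ) : om J (u - v) w = om J u w - om J v w := by
  unfold om; rw [sub_dotProduct]

lemma om_neg (u v : Fin n → ℂ) : om J u (-v) = -om J u v := by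
  unfold om; rw [mulVec_neg, dotProduct_neg]

lemma om_neg_left (u v : Fin n → ℂ) : om J (-u) v = -om J u v := by
  unfold om; rw [neg_dotProduct]

lemma om_zero (u : Fin n → ℂ) : om J u 0 = 0 := by
  unfold om; rw [mulVec_zero, dotProduct_zero]

lemma isom_of {g : Matrix (Fin n) (Fin n) ℂ} (h : ∀ x y, om J (g *ᵥ x) (g *ᵥ y) = om J x y) :
    g.transpose * J * g = J := by
  have h1 : ∀ x y : Fin n → ℂ, x ⬝ᵥ ((g.transpose * J * g) *ᵥ y) = x ⬝ᵥ (J *ᵥ y) := by
    intro x y
    have h2 := h x y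
    unfold om at h2
    rw [← h2, ← mulVec_mulVec, ← mulVec_mulVec, dotProduct_mulVec x, vecMul_transpose]
  refine mat_ext fun y => ?_
  funext i
  have h3 := h1 (Pi.single i 1) y
  rwa [single_one_dotProduct, single_one_dotProduct] at h3

/-- the nilpotent elements -/
def NS (J : Matrix (Fin n) (Fin n) ℂ) : Set (Matrix (Fin n) (Fin n) ℂ) :=
  {N | ∃ u w, om J u u = 0 ∧ om J u w = 0 ∧ N = nu J u w}

section
variable (hJ : J.transpose = J)
include hJ

lemma nu_sq_mulVec {u w : Fin n → ℂ} (huu : om J u u = 0) (huw : om J u w = 0) (z : Fin n → ℂ) :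
    nu J u w *ᵥ (nu J u w *ᵥ z) = (-(om J w w * om J u z)) • u := by
  have hwu : om J w u = 0 := by rw [om_symm hJ]; exact huw
  rw [nu_mulVec u w z, nu_mulVec, om_sub, om_sub, om_smul, om_smul, om_smul, om_smul, huu, huw, hwu]
  ext i
  simp only [Pi.sub_apply, Pi.smul_apply, smul_eq_mul]
  ring

lemma nu_cube {u w : Fin n → ℂ} (huu : om J u u = 0) (huw : om J u w = 0) : nu J u w ^ 3 = 0 := by
  have hwu : om J w u = 0 := by rw [om_symm hJ]; exact huw
  refine mat_ext fun z => ?_
  rw [pow_succ, pow_succ, pow_one, ← mulVec_mulVec, ← mulVec_mulVec, nu_mulVec u w z, mulVec_sub, mulVec_smul, mulVec_smul,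
    mulVec_sub, mulVec_smul, mulVec_smul, nu_sq_mulVec hJ huu huw, nu_sq_mulVec hJ huu huw, huu, huw, zero_mulVec]
  simp

lemma nu_nil {u w : Fin n → ℂ} (huu : om J u u = 0) (huw : om J u w = 0) : IsNilpotent (nu J u w) :=
  ⟨3, nu_cube hJ huu huw⟩

lemma NS_nil {N : Matrix (Fin n) (Fin n) ℂ} (hN : N ∈ NS J) : IsNilpotent N := by
  obtain ⟨u, w, huu, huw, rfl⟩ := hN
  exact nu_nil hJ huu huw

/-- the exponential -/
lemma nu_exp_mulVec {u w : Fin n → ℂ} (huu : om J u u = 0) (huw : om J u w = 0) (t : ℂ) (z : Fin n → ℂ) :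
    IsNilpotent.exp (t • nu J u w) *ᵥ z =
      z + t • (om J u z • w - om J w z • u) - (t ^ 2 / 2 * (om J w w * om J u z)) • u := by
  have h1 : (t • nu J u w) ^ 3 = 0 := by
    rw [smul_pow, nu_cube hJ huu huw, smul_zero]
  have h2 : IsNilpotent.exp (t • nu J u w) = 1 + t • nu J u w + ((1 / 2 : ℂ)) • (t • nu J u w) ^ 2 := by
    rw [IsNilpotent.exp_eq_sum h1]
    have h3 : ∀ X : Matrix (Fin n) (Fin n) ℂ, (((2 : ℕ).factorial : ℚ)⁻¹) • X = (1 / 2 : ℂ) • X := by
      intro X
      ext i j
      rw [Matrix.smul_apply, Matrix.smul_apply, Rat.smul_def, smul_eq_mul]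
      norm_num [Nat.factorial]
    rw [Finset.sum_range_succ, Finset.sum_range_succ, Finset.sum_range_succ, Finset.sum_range_zero, h3, zero_add,
      Nat.factorial_zero, Nat.factorial_one, Nat.cast_one, inv_one, one_smul, one_smul, pow_zero, pow_one]
  rw [h2, add_mulVec, add_mulVec, one_mulVec, smul_mulVec, nu_mulVec, smul_mulVec, smul_pow, smul_mulVec, pow_two (nu J u w),
    ← mulVec_mulVec, nu_sq_mulVec hJ huu huw]
  ext i
  simp only [Pi.add_apply, Pi.sub_apply, Pi.smul_apply, smul_eq_mul]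
  ring

lemma nu_exp_isom {u w : Fin n → ℂ} (huu : om J u u = 0) (huw : om J u w = 0) (t : ℂ) :
    (IsNilpotent.exp (t • nu J u w)).transpose * J * IsNilpotent.exp (t • nu J u w) = J := by
  have hwu : om J w u = 0 := by rw [om_symm hJ]; exact huw
  have key : ∀ x y, om J (IsNilpotent.exp (t • nu J u w) *ᵥ x) (IsNilpotent.exp (t • nu J u w) *ᵥ y) = om J x y := by
    intro x y
    rw [nu_exp_mulVec hJ huu huw, nu_exp_mulVec hJ huu huw]
    simp only [om_sub, om_sub_left, om_add, om_add_left, om_smul, om_smul_left, huu, huw, hwu]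
    rw [om_symm hJ w x, om_symm hJ u x]
    ring
  refine isom_of fun x y => key x y

omit hJ in
/-- the conjugate -/
lemma nu_conj {g h : Matrix (Fin n) (Fin n) ℂ} (hgh : g * h = 1) (hg : g.transpose * J * g = J) (u w : Fin n → ℂ) :
    g * nu J u w * h = nu J (g *ᵥ u) (g *ᵥ w) := by
  refine mat_ext fun z => ?_
  have h1 : ∀ x, om J x (h *ᵥ z) = om J (g *ᵥ x) z := by
    intro x
    have h2 := om_isom hg x (h *ᵥ z)
    rw [mulVec_mulVec, hgh, one_mulVec] at h2
    exact h2.symm
  rw [← mulVec_mulVec, ← mulVec_mulVec, nu_mulVec, nu_mulVec, mulVec_sub, mulVec_smul, mulVec_smul, h1, h1]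

end

lemma ex_dual (hdet : J.det ≠ 0) {u : Fin n → ℂ} (hu : u ≠ 0) : ∃ f, om J u f = 1 := by
  by_contra hcon
  push Not at hcon
  apply hu
  refine Matrix.eq_zero_of_vecMul_eq_zero hdet ?_
  by_contra h1
  obtain ⟨i, hi⟩ : ∃ i, (u ᵥ* J) i ≠ 0 := by
    by_contra h2
    push Not at h2
    exact h1 (funext h2)
  refine hcon (((u ᵥ* J) i)⁻¹ • Pi.single i 1) ?_
  rw [om_smul, om_eq, dotProduct_single, mul_one, inv_mul_cancel₀ hi]

lemma eq_zero_of_om (hdet : J.det ≠ 0) {u : Fin n → ℂ} (hu : ∀ f, om J u f = 0) : u = 0 := by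
  by_contra h
  obtain ⟨f, hf⟩ := ex_dual hdet h
  rw [hu f] at hf
  exact zero_ne_one hf

lemma nu_shift (u w : Fin n → ℂ) (c : ℂ) : nu J u (w - c • u) = nu J u w := by
  refine mat_ext fun z => ?_
  rw [nu_mulVec, nu_mulVec, om_sub_left, om_smul_left]
  funext i
  simp only [Pi.sub_apply, Pi.smul_apply, smul_eq_mul]
  ring

/-- a complement of a plane contains a vector which is not isotropic -/
lemma ex_aniso (hJ : J.transpose = J) (hdet : J.det ≠ 0) (hn : 3 ≤ n) (a b : Fin n → ℂ)
    (π : (Fin n → ℂ) → Fin n → ℂ) (hadd : ∀ z z', π (z + z') = π z + π z')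
    (h1 : ∀ z, om J (π z) a = 0 ∧ om J (π z) b = 0) (h2 : ∀ z, ∃ α β : ℂ, z = π z + α • a + β • b) :
    ∃ z, om J (π z) (π z) ≠ 0 := by
  by_contra hcon
  push Not at hcon
  have h3 : ∀ z z', om J (π z) (π z') = 0 := by
    intro z z'
    have e1 := hcon (z + z')
    rw [hadd, om_add, om_add_left, om_add_left, hcon, hcon, om_symm hJ (π z) (π z')] at e1
    linear_combination e1 / 2
  have h4 : ∀ z, π z = 0 := by
    intro z
    refine eq_zero_of_om hdet fun f => ?_
    obtain ⟨α, β, hf⟩ := h2 f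
    rw [hf, om_add, om_add, om_smul, om_smul, h3, (h1 z).1, (h1 z).2]
    ring
  have h5 : Submodule.span ℂ {a, b} = ⊤ := by
    rw [eq_top_iff]
    intro z _
    obtain ⟨α, β, hz⟩ := h2 z
    rw [h4, zero_add] at hz
    rw [Submodule.mem_span_pair]
    exact ⟨α, β, hz.symm⟩
  have h6 := finrank_span_le_card (R := ℂ) ({a, b} : Set (Fin n → ℂ))
  rw [h5, finrank_top, Module.finrank_fin_fun] at h6
  have h7 : ({a, b} : Set (Fin n → ℂ)).toFinset.card ≤ 2 := by
    rw [Set.toFinset_insert, Set.toFinset_singleton]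
    exact Finset.card_le_two
  omega

section
variable (hJ : J.transpose = J)
include hJ

/-- **the Eichler transformations** -/
lemma eichler {u x y : Fin n → ℂ} (huu : om J u u = 0) (hux : om J u x ≠ 0) (hxy : om J u y = om J u x)
    (hn : om J y y = om J x x) :
    om J u ((om J u x)⁻¹ • (y - x)) = 0 ∧
      IsNilpotent.exp ((1 : ℂ) • nu J u ((om J u x)⁻¹ • (y - x))) *ᵥ x = y := by
  have h1 : om J u ((om J u x)⁻¹ • (y - x)) = 0 := by
    rw [om_smul, om_sub, hxy, sub_self, mul_zero]
  refine ⟨h1, ?_⟩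
  rw [nu_exp_mulVec hJ huu h1]
  have e1 : om J ((om J u x)⁻¹ • (y - x)) x = (om J u x)⁻¹ * (om J x y - om J x x) := by
    rw [om_smul_left, om_sub_left, om_symm hJ x y]
  have e2 : om J ((om J u x)⁻¹ • (y - x)) ((om J u x)⁻¹ • (y - x)) =
      (om J u x)⁻¹ * ((om J u x)⁻¹ * (2 * om J x x - 2 * om J x y)) := by
    rw [om_smul, om_smul_left, om_sub, om_sub_left, om_sub_left, hn, om_symm hJ x y]
    ring
  rw [e1, e2]
  funext i
  simp only [Pi.add_apply, Pi.sub_apply, Pi.smul_apply, smul_eq_mul]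
  field_simp
  ring

/-- isotropic vectors which separate -/
lemma ex_iso (hdet : J.det ≠ 0) (hn : 3 ≤ n) {x d : Fin n → ℂ} (hd : om J d d ≠ 0)
    (hx : x - (om J d x / om J d d) • d ≠ 0) : ∃ u, om J u u = 0 ∧ om J u d = 0 ∧ om J u x ≠ 0 := by
  set x' := x - (om J d x / om J d d) • d with hx'
  have hx'd : om J d x' = 0 := by
    rw [hx', om_sub, om_smul]
    field_simp
    ring
  have hdx' : om J x' d = 0 := by rw [om_symm hJ]; exact hx'd
  have hux : ∀ u, om J u d = 0 → om J u x = om J u x' := by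
    intro u hu
    rw [hx', om_sub, om_smul, hu, mul_zero, sub_zero]
  by_cases hq : om J x' x' = 0
  · obtain ⟨f, hf⟩ := ex_dual hdet hx
    set f1 := f - (om J d f / om J d d) • d with hf1
    have h1 : om J x' f1 = 1 := by rw [hf1, om_sub, om_smul, hdx', mul_zero, sub_zero, hf]
    have h1' : om J f1 x' = 1 := by rw [om_symm hJ]; exact h1
    have h2 : om J d f1 = 0 := by
      rw [hf1, om_sub, om_smul]
      field_simp
      ring
    have h2' : om J f1 d = 0 := by rw [om_symm hJ]; exact h2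
    refine ⟨f1 - (om J f1 f1 / 2) • x', ?_, ?_, ?_⟩
    · clear_value f1
      rw [om_sub, om_sub_left, om_sub_left, om_smul, om_smul, om_smul_left, om_smul_left, h1, h1', hq]
      ring
    · rw [om_sub_left, om_smul_left, h2', hdx']
      ring
    · rw [hux _ (by rw [om_sub_left, om_smul_left, h2', hdx']; ring), om_sub_left, om_smul_left, hq, h1']
      norm_num
  · obtain ⟨z, hz⟩ := ex_aniso hJ hdet hn d x'
      (fun z => z - (om J d z / om J d d) • d - (om J x' z / om J x' x') • x') (fun z z' => by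
        rw [om_add, om_add, add_div, add_div, add_smul, add_smul]
        abel) (fun z => by
        constructor
        · rw [om_sub_left, om_sub_left, om_smul_left, om_smul_left, om_symm hJ d z, hdx', div_mul_cancel₀ _ hd]
          ring
        · rw [om_sub_left, om_sub_left, om_smul_left, om_smul_left, om_symm hJ x' z, hx'd, div_mul_cancel₀ _ hq]
          ring) (fun z => ⟨om J d z / om J d d, om J x' z / om J x' x', by abel⟩)
    set w := z - (om J d z / om J d d) • d - (om J x' z / om J x' x') • x' with hw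
    have hwd : om J w d = 0 := by
      rw [hw, om_sub_left, om_sub_left, om_smul_left, om_smul_left, om_symm hJ d z, hdx', div_mul_cancel₀ _ hd]
      ring
    have hwx : om J w x' = 0 := by
      rw [hw, om_sub_left, om_sub_left, om_smul_left, om_smul_left, om_symm hJ x' z, hx'd, div_mul_cancel₀ _ hq]
      ring
    have hxw : om J x' w = 0 := by rw [om_symm hJ]; exact hwx
    obtain ⟨l, hl⟩ := IsAlgClosed.exists_eq_mul_self (-(om J x' x' / om J w w))
    have hud : om J (x' + l • w) d = 0 := by rw [om_add_left, om_smul_left, hdx', hwd]; ring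
    refine ⟨x' + l • w, ?_, hud, ?_⟩
    · rw [om_add, om_add_left, om_add_left, om_smul, om_smul, om_smul_left, om_smul_left, hwx, hxw]
      have h1 : l * (l * om J w w) = -om J x' x' := by
        rw [← mul_assoc, ← hl, neg_mul, div_mul_cancel₀ _ hz]
      linear_combination h1
    · rw [hux _ hud, om_add_left, om_smul_left, hwx, mul_zero, add_zero]
      exact hq

/-- **`NS` is in the span of its commutators** -/
theorem NS_perf (hdet : J.det ≠ 0) (hn : 3 ≤ n) {N : Matrix (Fin n) (Fin n) ℂ} (hN : N ∈ NS J) :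
    N ∈ Submodule.span ℂ {C : Matrix (Fin n) (Fin n) ℂ | ∃ A ∈ NS J, ∃ B ∈ NS J, C = A * B - B * A} := by
  obtain ⟨u, w₀, huu, huw₀, rfl⟩ := hN
  by_cases hu : u = 0
  · have h1 : nu J u w₀ = 0 := by
      refine mat_ext fun z => ?_
      rw [nu_mulVec, hu, om_zero_left, zero_smul, smul_zero, sub_zero, zero_mulVec]
    rw [h1]
    exact Submodule.zero_mem _
  obtain ⟨f₀, hf₀⟩ := ex_dual hdet hu
  set f := f₀ - (om J f₀ f₀ / 2) • u with hf
  have hf₀u : om J f₀ u = 1 := by rw [om_symm hJ]; exact hf₀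
  have huf : om J u f = 1 := by rw [hf, om_sub, om_smul, huu, hf₀]; ring
  have hfu : om J f u = 1 := by rw [om_symm hJ]; exact huf
  have hff : om J f f = 0 := by
    rw [hf, om_sub, om_sub_left, om_sub_left, om_smul, om_smul, om_smul_left, om_smul_left, huu, hf₀, hf₀u]
    ring
  -- a vector orthogonal to the plane
  obtain ⟨z₀, hz₀⟩ := ex_aniso hJ hdet hn u f (fun z => z - om J f z • u - om J u z • f) (fun z z' => by
      rw [om_add, om_add, add_smul, add_smul]
      abel) (fun z => by
      constructor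
      · rw [om_sub_left, om_sub_left, om_smul_left, om_smul_left, om_symm hJ u z, huu, hfu]
        ring
      · rw [om_sub_left, om_sub_left, om_smul_left, om_smul_left, om_symm hJ f z, hff, huf]
        ring) (fun z => ⟨om J f z, om J u z, by abel⟩)
  set v := z₀ - om J f z₀ • u - om J u z₀ • f with hv
  have hvu : om J v u = 0 := by
    rw [hv, om_sub_left, om_sub_left, om_smul_left, om_smul_left, om_symm hJ u z₀, huu, hfu]
    ring
  have hvf : om J v f = 0 := by
    rw [hv, om_sub_left, om_sub_left, om_smul_left, om_smul_left, om_symm hJ f z₀, hff, huf]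
    ring
  have huv : om J u v = 0 := by rw [om_symm hJ]; exact hvu
  have hfv : om J f v = 0 := by rw [om_symm hJ]; exact hvf
  set q := om J v v with hq
  -- the vector `w`
  set w := w₀ - om J f w₀ • u with hw
  have huw : om J u w = 0 := by rw [hw, om_sub, om_smul, huu, huw₀]; ring
  have hfw : om J f w = 0 := by rw [hw, om_sub, om_smul, hfu]; ring
  have hwu : om J w u = 0 := by rw [om_symm hJ]; exact huw
  have hwf : om J w f = 0 := by rw [om_symm hJ]; exact hfw
  have hnw : nu J u w₀ = nu J u w := by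
    rw [hw]
    exact (nu_shift u w₀ _).symm
  set N1 := nu J (u + v - (q / 2) • f) (v - q • f) with hN1
  set N2 := nu J (u - v - (q / 2) • f) (v + q • f) with hN2
  have hN1m : N1 ∈ NS J := by
    refine ⟨_, _, ?_, ?_, rfl⟩
    · simp only [om_sub, om_sub_left, om_add, om_add_left, om_smul, om_smul_left, huu, hff, huf, hfu, huv, hvu, hfv, hvf, ← hq]
      ring
    · simp only [om_sub, om_sub_left, om_add, om_add_left, om_smul, om_smul_left, huu, hff, huf, hfu, huv, hvu, hfv, hvf, ← hq]
      ring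
  have hN2m : N2 ∈ NS J := by
    refine ⟨_, _, ?_, ?_, rfl⟩
    · simp only [om_sub, om_sub_left, om_add, om_add_left, om_smul, om_smul_left, huu, hff, huf, hfu, huv, hvu, hfv, hvf, ← hq]
      ring
    · simp only [om_sub, om_sub_left, om_add, om_add_left, om_smul, om_smul_left, huu, hff, huf, hfu, huv, hvu, hfv, hvf, ← hq]
      ring
  have hNm : nu J u w ∈ NS J := ⟨u, w, huu, huw, rfl⟩
  have hz : q ≠ 0 := hz₀
  have hH : ∀ z, N1 *ᵥ z - N2 *ᵥ z = (2 * q) • (om J f z • u - om J u z • f) := by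
    intro z
    rw [hN1, hN2, nu_mulVec, nu_mulVec]
    simp only [om_sub_left, om_add_left, om_smul_left]
    funext i
    simp only [Pi.sub_apply, Pi.add_apply, Pi.smul_apply, smul_eq_mul]
    ring
  have hkey : nu J u w = (2 * q)⁻¹ • ((N1 * nu J u w - nu J u w * N1) - (N2 * nu J u w - nu J u w * N2)) := by
    refine mat_ext fun z => ?_
    rw [smul_mulVec, sub_mulVec, sub_mulVec, sub_mulVec, ← mulVec_mulVec, ← mulVec_mulVec, ← mulVec_mulVec, ← mulVec_mulVec]
    have e1 : N1 *ᵥ (nu J u w *ᵥ z) - nu J u w *ᵥ (N1 *ᵥ z) - (N2 *ᵥ (nu J u w *ᵥ z) - nu J u w *ᵥ (N2 *ᵥ z)) =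
        (N1 *ᵥ (nu J u w *ᵥ z) - N2 *ᵥ (nu J u w *ᵥ z)) - nu J u w *ᵥ (N1 *ᵥ z - N2 *ᵥ z) := by
      rw [mulVec_sub]
      abel
    rw [e1, hH, hH, mulVec_smul, mulVec_sub, mulVec_smul, mulVec_smul, ← smul_sub, smul_smul,
      inv_mul_cancel₀ (mul_ne_zero two_ne_zero hz), one_smul, nu_mulVec, nu_mulVec, nu_mulVec]
    simp only [om_sub, om_smul, huu, huf, hfu, huw, hfw, hwu, hwf]
    funext i
    simp only [Pi.sub_apply, Pi.smul_apply, smul_eq_mul]
    ring
  rw [hnw, hkey]
  refine Submodule.smul_mem _ _ (Submodule.sub_mem _ ?_ ?_)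
  · exact Submodule.subset_span ⟨N1, hN1m, _, hNm, rfl⟩
  · exact Submodule.subset_span ⟨N2, hN2m, _, hNm, rfl⟩

/-! ### generation -/

lemma exp_rf {r : Matrix (Fin n) (Fin n) ℂ} (hr : r * r = 1) (hri : r.transpose * J * r = J) {u w : Fin n → ℂ}
    (huu : om J u u = 0) (huw : om J u w = 0) (t : ℂ) :
    r * IsNilpotent.exp (t • nu J u w) * r = IsNilpotent.exp (t • nu J (r *ᵥ u) (r *ᵥ w)) := by
  have huu' : om J (r *ᵥ u) (r *ᵥ u) = 0 := by rw [om_isom hri]; exact huu
  have huw' : om J (r *ᵥ u) (r *ᵥ w) = 0 := by rw [om_isom hri]; exact huw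
  have hx : ∀ x z, om J x (r *ᵥ z) = om J (r *ᵥ x) z := by
    intro x z
    have h2 := om_isom hri x (r *ᵥ z)
    rw [mulVec_mulVec, hr, one_mulVec] at h2
    exact h2.symm
  refine mat_ext fun z => ?_
  rw [← mulVec_mulVec, ← mulVec_mulVec, nu_exp_mulVec hJ huu huw, nu_exp_mulVec hJ huu' huw', mulVec_sub, mulVec_add,
    mulVec_smul, mulVec_smul, mulVec_sub, mulVec_smul, mulVec_smul, mulVec_mulVec, hr, one_mulVec, hx, hx, om_isom hri]

/-- the monoid generated by the unipotent elements -/
noncomputable def S0 (J : Matrix (Fin n) (Fin n) ℂ) : Submonoid (Matrix (Fin n) (Fin n) ℂ) :=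
  Submonoid.closure {g | ∃ N ∈ NS J, ∃ t : ℂ, g = IsNilpotent.exp (t • N)}

lemma S0_conj {r : Matrix (Fin n) (Fin n) ℂ} (hr : r * r = 1) (hri : r.transpose * J * r = J)
    {s : Matrix (Fin n) (Fin n) ℂ} (hs : s ∈ S0 J) : r * s * r ∈ S0 J := by
  unfold S0 at hs
  induction hs using Submonoid.closure_induction with
  | mem x hx =>
    obtain ⟨N, ⟨u, w, huu, huw, rfl⟩, t, rfl⟩ := hx
    rw [exp_rf hJ hr hri huu huw]
    exact Submonoid.subset_closure ⟨_, ⟨r *ᵥ u, r *ᵥ w, by rw [om_isom hri]; exact huu, by rw [om_isom hri]; exact huw,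
      rfl⟩, t, rfl⟩
  | one =>
    rw [Matrix.mul_one, hr]
    exact (S0 J).one_mem
  | mul x y _ _ hx hy =>
    have h1 : r * (x * y) * r = (r * x * r) * (r * y * r) := by
      calc r * (x * y) * r = r * x * (1 * (y * r)) := by
            rw [Matrix.one_mul]
            simp only [Matrix.mul_assoc]
        _ = r * x * ((r * r) * (y * r)) := by rw [hr]
        _ = _ := by simp only [Matrix.mul_assoc]
    rw [h1]
    exact (S0 J).mul_mem hx hy

lemma S0_inv {s : Matrix (Fin n) (Fin n) ℂ} (hs : s ∈ S0 J) : ∃ s' ∈ S0 J, s * s' = 1 ∧ s' * s = 1 := by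
  unfold S0 at hs
  induction hs using Submonoid.closure_induction with
  | mem x hx =>
    obtain ⟨N, hN, t, rfl⟩ := hx
    have hnil := NS_nil hJ hN
    refine ⟨IsNilpotent.exp ((-t) • N), Submonoid.subset_closure ⟨N, hN, -t, rfl⟩, ?_, ?_⟩
    · rw [neg_smul]
      exact IsNilpotent.exp_mul_exp_neg_self (hnil.smul t)
    · rw [neg_smul]
      exact IsNilpotent.exp_neg_mul_exp_self (hnil.smul t)
  | one => exact ⟨1, (S0 J).one_mem, Matrix.one_mul 1, Matrix.one_mul 1⟩
  | mul x y _ _ hx hy =>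
    obtain ⟨x', hx', h1, h2⟩ := hx
    obtain ⟨y', hy', h3, h4⟩ := hy
    refine ⟨y' * x', (S0 J).mul_mem hy' hx', ?_, ?_⟩
    · calc x * y * (y' * x') = x * (y * y') * x' := by simp only [Matrix.mul_assoc]
        _ = 1 := by rw [h3, Matrix.mul_one, h1]
    · calc y' * x' * (x * y) = y' * (x' * x) * y := by simp only [Matrix.mul_assoc]
        _ = 1 := by rw [h2, Matrix.mul_one, h4]

lemma S0_isom {s : Matrix (Fin n) (Fin n) ℂ} (hs : s ∈ S0 J) : s.transpose * J * s = J := by
  unfold S0 at hs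
  induction hs using Submonoid.closure_induction with
  | mem x hx =>
    obtain ⟨N, ⟨u, w, huu, huw, rfl⟩, t, rfl⟩ := hx
    exact nu_exp_isom hJ huu huw t
  | one => rw [transpose_one, Matrix.one_mul, Matrix.mul_one]
  | mul x y _ _ hx hy =>
    calc (x * y).transpose * J * (x * y) = y.transpose * (x.transpose * J * x) * y := by
          rw [transpose_mul]; simp only [Matrix.mul_assoc]
      _ = J := by rw [hx, hy]

lemma S0_det (hdet : J.det ≠ 0) {s : Matrix (Fin n) (Fin n) ℂ} (hs : s ∈ S0 J) : s.det = 1 := by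
  unfold S0 at hs
  induction hs using Submonoid.closure_induction with
  | mem x hx =>
    obtain ⟨N, ⟨u, w, huu, huw, rfl⟩, t, rfl⟩ := hx
    have hnil := nu_nil hJ huu huw
    have h1 : IsNilpotent.exp (t • nu J u w) = IsNilpotent.exp ((t / 2) • nu J u w) * IsNilpotent.exp ((t / 2) • nu J u w) := by
      rw [← IsNilpotent.exp_add_of_commute (Commute.refl _) (hnil.smul _) (hnil.smul _), ← add_smul]
      congr 2
      ring
    have h2 := congrArg Matrix.det (nu_exp_isom hJ huu huw (t / 2))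
    rw [det_mul, det_mul, det_transpose] at h2
    rw [h1, det_mul]
    apply mul_right_cancel₀ hdet
    linear_combination h2
  | one => exact det_one
  | mul x y _ _ hx hy => rw [det_mul, hx, hy, one_mul]

/-- transitivity -/
lemma S0_trans (hdet : J.det ≠ 0) (hn : 3 ≤ n) {x y : Fin n → ℂ} (hx : om J x x ≠ 0) (hxy : om J y y = om J x x) :
    ∃ s ∈ S0 J, s *ᵥ x = y ∨ s *ᵥ x = -y := by
  -- a choice of the sign
  have main : ∀ y : Fin n → ℂ, om J y y = om J x x → om J (y - x) (y - x) ≠ 0 → ∃ s ∈ S0 J, s *ᵥ x = y ∨ s *ᵥ x = -y := by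
    intro y hxy hd
    by_cases h0 : x - (om J (y - x) x / om J (y - x) (y - x)) • (y - x) = 0
    · -- `x` is a multiple of `y - x`
      set c := om J (y - x) x / om J (y - x) (y - x) with hc
      have hc0 : c ≠ 0 := by
        intro h
        rw [h, zero_smul, sub_zero] at h0
        rw [h0, om_zero] at hx
        exact hx rfl
      have h1 : c • y = (1 + c) • x := by
        funext i
        have h2 := congrFun h0 i
        simp only [Pi.sub_apply, Pi.smul_apply, smul_eq_mul, Pi.zero_apply] at h2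
        simp only [Pi.smul_apply, smul_eq_mul]
        linear_combination -h2
      have h2 : c * (c * om J x x) = (1 + c) * ((1 + c) * om J x x) := by
        have h3 := congrArg (fun z => om J z z) h1
        simp only [om_smul, om_smul_left] at h3
        rw [hxy] at h3
        exact h3
      have h3 : c * c = (1 + c) * (1 + c) := by
        apply mul_right_cancel₀ hx
        linear_combination h2
      have h4 : c = -1 / 2 := by linear_combination -h3 / 2
      refine ⟨1, (S0 J).one_mem, Or.inr ?_⟩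
      rw [one_mulVec]
      rw [h4] at h1
      funext i
      have h5 := congrFun h1 i
      simp only [Pi.smul_apply, smul_eq_mul] at h5
      rw [Pi.neg_apply]
      linear_combination -2 * h5
    · obtain ⟨u, hu1, hu2, hu3⟩ := ex_iso hJ hdet hn hd h0
      have hu4 : om J u y = om J u x := by
        rw [om_sub] at hu2
        linear_combination hu2
      obtain ⟨h1, h2⟩ := eichler hJ hu1 hu3 hu4 hxy
      exact ⟨_, Submonoid.subset_closure ⟨_, ⟨u, _, hu1, h1, rfl⟩, 1, rfl⟩, Or.inl h2⟩
  by_cases hd : om J (y - x) (y - x) = 0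
  · have h1 : om J (-y - x) (-y - x) ≠ 0 := by
      intro h
      apply hx
      rw [om_sub, om_sub_left, om_sub_left, hxy, om_symm hJ x y] at hd
      rw [om_sub, om_sub_left, om_sub_left, om_neg_left, om_neg_left, om_neg, om_neg, hxy, om_symm hJ x y] at h
      linear_combination (hd + h) / 4
    obtain ⟨s, hs, h2⟩ := main (-y) (by rw [om_neg, om_neg_left, neg_neg]; exact hxy) h1
    refine ⟨s, hs, ?_⟩
    rw [neg_neg] at h2
    exact h2.symm
  · exact main y hxy hd

/-- products of two reflections -/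
lemma S0_rf (hdet : J.det ≠ 0) (hn : 3 ≤ n) {x y : Fin n → ℂ} (hx : om J x x ≠ 0) (hy : om J y y ≠ 0) :
    rf J y * rf J x ∈ S0 J := by
  obtain ⟨l, hl⟩ := IsAlgClosed.exists_eq_mul_self (om J x x / om J y y)
  have hl0 : l ≠ 0 := by
    rintro rfl
    rw [mul_zero] at hl
    exact div_ne_zero hx hy hl
  have h1 : om J (l • y) (l • y) = om J x x := by
    rw [om_smul, om_smul_left, ← mul_assoc, ← hl, div_mul_cancel₀ _ hy]
  obtain ⟨s, hs, h2⟩ := S0_trans hJ hdet hn hx h1
  obtain ⟨s', hs', h3, h4⟩ := S0_inv hJ hs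
  have h5 : s * rf J x * s' = rf J y := by
    rw [rf_conj h3 (S0_isom hJ hs)]
    rcases h2 with h2 | h2
    · rw [h2, rf_smul hl0]
    · rw [h2, ← neg_one_smul ℂ (l • y), rf_smul (neg_ne_zero.2 one_ne_zero), rf_smul hl0]
  have h6 : rf J y * rf J x = s * (rf J x * s' * rf J x) := by
    rw [← h5]
    simp only [Matrix.mul_assoc]
  rw [h6]
  exact (S0 J).mul_mem hs (S0_conj hJ (rf_sq hx) (rf_isom hJ hx) hs')

omit hJ in
lemma rf_det {x : Fin n → ℂ} (hx : om J x x ≠ 0) : (rf J x).det = -1 := by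
  have h1 : rf J x = 1 + replicateCol Unit ((-2 / om J x x) • x) * replicateRow Unit (x ᵥ* J) := by
    unfold rf tv
    congr 1
    ext i j
    simp [vecMulVec_apply, Matrix.mul_apply]
    ring
  rw [h1, det_one_add_replicateCol_mul_replicateRow, dotProduct_smul, ← om_eq, smul_eq_mul, div_mul_cancel₀ _ hx]
  norm_num

/-- **generation** -/
theorem so_gen (hdet : J.det ≠ 0) (hn : 3 ≤ n) (S : Submonoid (Matrix (Fin n) (Fin n) ℂ))
    (hS : ∀ N ∈ NS J, ∀ t : ℂ, IsNilpotent.exp (t • N) ∈ S) (g : Matrix (Fin n) (Fin n) ℂ)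
    (hg : g.transpose * J * g = J) (hg1 : g.det = 1) : g ∈ S := by
  have hle : S0 J ≤ S := by
    refine Submonoid.closure_le.2 ?_
    rintro _ ⟨N, hN, t, rfl⟩
    exact hS N hN t
  apply hle
  -- a vector which is not isotropic
  obtain ⟨z₀, hz₀⟩ := ex_aniso hJ hdet hn 0 0 (fun z => z) (fun _ _ => rfl)
    (fun z => ⟨om_zero _, om_zero _⟩) (fun z => ⟨0, 0, by simp⟩)
  set r := rf J z₀ with hr
  have hrr : r * r = 1 := rf_sq hz₀
  have hri : r.transpose * J * r = J := rf_isom hJ hz₀
  let S' : Submonoid (Matrix (Fin n) (Fin n) ℂ) :=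
    { carrier := {g | g ∈ S0 J ∨ g * r ∈ S0 J}
      one_mem' := Or.inl (S0 J).one_mem
      mul_mem' := by
        intro a b ha hb
        rcases ha with ha | ha
        · rcases hb with hb | hb
          · exact Or.inl ((S0 J).mul_mem ha hb)
          · refine Or.inr ?_
            rw [Matrix.mul_assoc]
            exact (S0 J).mul_mem ha hb
        · rcases hb with hb | hb
          · refine Or.inr ?_
            have h1 := (S0 J).mul_mem ha (S0_conj hJ hrr hri hb)
            have h2 : a * r * (r * b * r) = a * b * r := by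
              calc a * r * (r * b * r) = a * (r * r) * (b * r) := by simp only [Matrix.mul_assoc]
                _ = a * b * r := by rw [hrr, Matrix.mul_one, ← Matrix.mul_assoc]
            rwa [h2] at h1
          · refine Or.inl ?_
            have h1 := (S0 J).mul_mem ha (S0_conj hJ hrr hri hb)
            have h2 : a * r * (r * (b * r) * r) = a * b := by
              calc a * r * (r * (b * r) * r) = a * (r * r) * b * (r * r) := by simp only [Matrix.mul_assoc]
                _ = a * b := by rw [hrr, Matrix.mul_one, Matrix.mul_one]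
            rwa [h2] at h1 }
  have h1 : g ∈ S' := gen_rf hJ hdet S' (fun x hx => Or.inr (S0_rf hJ hdet hn hz₀ hx)) g hg
  rcases h1 with h1 | h1
  · exact h1
  · have h2 := S0_det hJ hdet h1
    rw [det_mul, hg1, hr, rf_det hz₀] at h2
    norm_num at h2

end

end Run7.h893.TO
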