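import Pool.Agent.Run7.h893.TO.So
import Pool.Agent.Y123.GN.C4
import Pool.Agent.Y123.GN.C1

/-!
# Sums of a fixed object, Kummer motives and motives with perfect unipotently generated groups: stability of the
# subtorsors
-/

set_option autoImplicit false
set_option linter.unusedSectionVars false

open Matrix

namespace Run7.h893.TO

open Pool.Agent.TH127.PT Pool.Agent.Y123.ST Pool.Agent.Y123.GN

/-- the matrices with the property `G` form a group which is generated by the `exp (t N)`, `N ∈ 𝒩`, with `𝒩` a perfect set -/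
structure UG {n : ℕ} (G : Matrix (Fin n) (Fin n) ℂ → Prop) (𝒩 : Set (Matrix (Fin n) (Fin n) ℂ)) : Prop where
  one : G 1
  nil : ∀ N ∈ 𝒩, IsNilpotent N
  mem : ∀ N ∈ 𝒩, ∀ t : ℂ, G (IsNilpotent.exp (t • N))
  perf : ∀ N ∈ 𝒩, N ∈ Submodule.span ℂ {C : Matrix (Fin n) (Fin n) ℂ | ∃ A ∈ 𝒩, ∃ B ∈ 𝒩, C = A * B - B * A}
  gen : ∀ S : Submonoid (Matrix (Fin n) (Fin n) ℂ), (∀ N ∈ 𝒩, ∀ t : ℂ, IsNilpotent.exp (t • N) ∈ S) →
    ∀ g, G g → g ∈ S

/-- the isometries of determinant `1` -/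
def SI {n : ℕ} (P g : Matrix (Fin n) (Fin n) ℂ) : Prop := g * P * gᵀ = P ∧ g.det = 1

theorem exp_det_one {n : ℕ} {P N : Matrix (Fin n) (Fin n) ℂ} (hdet : P.det ≠ 0) (hN : IsNilpotent N)
    (h : ∀ t : ℂ, IsNilpotent.exp (t • N) * P * (IsNilpotent.exp (t • N))ᵀ = P) (t : ℂ) :
    (IsNilpotent.exp (t • N)).det = 1 := by
  have h1 : IsNilpotent.exp (t • N) = IsNilpotent.exp ((t / 2) • N) * IsNilpotent.exp ((t / 2) • N) := by
    rw [← IsNilpotent.exp_add_of_commute (Commute.refl _) (hN.smul _) (hN.smul _), ← add_smul]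
    congr 2
    ring
  have h2 := congrArg Matrix.det (h (t / 2))
  rw [det_mul, det_mul, det_transpose] at h2
  rw [h1, det_mul]
  apply mul_right_cancel₀ hdet
  linear_combination h2

theorem UG.skew {n : ℕ} {P : Matrix (Fin n) (Fin n) ℂ} (hP : Pᵀ = -P) (hdet : P.det ≠ 0) :
    UG (SI P) {N | ∃ v, N = nv P⁻¹ v} := by
  have hiso : ∀ v, ∀ t : ℂ, IsNilpotent.exp (t • nv P⁻¹ v) * P * (IsNilpotent.exp (t • nv P⁻¹ v))ᵀ = P := by
    intro v t
    exact iso_flip hdet (nv_isom (inv_skew hP hdet) v t)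
  refine ⟨⟨by rw [transpose_one, Matrix.one_mul, Matrix.mul_one], det_one⟩, ?_, ?_, ?_, ?_⟩
  · rintro _ ⟨v, rfl⟩
    exact nv_nil (inv_skew hP hdet) v
  · rintro _ ⟨v, rfl⟩ t
    exact ⟨hiso v t, exp_det_one hdet (nv_nil (inv_skew hP hdet) v) (hiso v) t⟩
  · rintro _ ⟨v, rfl⟩
    refine Submodule.span_mono ?_ (nv_perf (inv_skew hP hdet) (inv_det hdet) v)
    rintro _ ⟨u, w, rfl⟩
    exact ⟨_, ⟨u, rfl⟩, _, ⟨w, rfl⟩, rfl⟩
  · intro S hS g hg
    exact sp_gen' (inv_skew hP hdet) (inv_det hdet) S (fun v s => hS _ ⟨v, rfl⟩ s) g (iso_flip' hdet hg.1)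

theorem inv_symm {n : ℕ} {P : Matrix (Fin n) (Fin n) ℂ} (hP : Pᵀ = P) : (P⁻¹)ᵀ = P⁻¹ := by
  rw [transpose_nonsing_inv, hP]

theorem UG.symm {n : ℕ} {P : Matrix (Fin n) (Fin n) ℂ} (hP : Pᵀ = P) (hdet : P.det ≠ 0) (hn : 3 ≤ n) :
    UG (SI P) (NS P⁻¹) := by
  have hiso : ∀ N ∈ NS P⁻¹, ∀ t : ℂ, IsNilpotent.exp (t • N) * P * (IsNilpotent.exp (t • N))ᵀ = P := by
    rintro _ ⟨u, w, huu, huw, rfl⟩ t
    exact iso_flip hdet (nu_exp_isom (inv_symm hP) huu huw t)
  refine ⟨⟨by rw [transpose_one, Matrix.one_mul, Matrix.mul_one], det_one⟩, ?_, ?_, ?_, ?_⟩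
  · intro N hN
    exact NS_nil (inv_symm hP) hN
  · intro N hN t
    exact ⟨hiso N hN t, exp_det_one hdet (NS_nil (inv_symm hP) hN) (hiso N hN) t⟩
  · intro N hN
    exact NS_perf (inv_symm hP) (inv_det hdet) hn hN
  · intro S hS g hg
    exact so_gen (inv_symm hP) (inv_det hdet) hn S hS g (iso_flip' hdet hg.1) hg.2

section
variable {B₀ : Type} [Fintype B₀] [DecidableEq B₀] {k : ℕ} {n : Fin k → ℕ} {K : Subfield ℂ}
  {T : Set (Matrix (IM B₀ n) (IM B₀ n) ℂ)}

/-- stability under the groups -/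
theorem grp_stab (hT : IsSubtorsor K T) {G : ∀ i, Matrix (Fin (n i)) (Fin (n i)) ℂ → Prop}
    {𝒩 : ∀ i, Set (Matrix (Fin (n i)) (Fin (n i)) ℂ)} (hU : ∀ i, UG (G i) (𝒩 i))
    (h : ∀ i, ∀ N ∈ 𝒩 i, fl (EM (0 : Matrix B₀ B₀ ℂ) 0 (Pi.single i N)) ∈ LL T)
    {g : ∀ i, Matrix (Fin (n i)) (Fin (n i)) ℂ} (hg : ∀ i, G i (g i))
    {x : Matrix (IM B₀ n) (IM B₀ n) ℂ} (hx : x ∈ T) : EM 1 1 g * x ∈ T := by
  classical
  have one : ∀ (i : Fin k), ∀ x ∈ T, EM 1 1 (su i (g i)) * x ∈ T := by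
    intro i
    let S : Submonoid (Matrix (Fin (n i)) (Fin (n i)) ℂ) :=
      { carrier := {A | ∀ x ∈ T, EM 1 1 (su i A) * x ∈ T}
        one_mem' := by
          intro x hx
          rw [su_one, EM_one, Matrix.one_mul]
          exact hx
        mul_mem' := by
          intro A B hA hB x hx
          have e1 : EM (1 : Matrix B₀ B₀ ℂ) (1 : Fin k → Matrix (Fin 2) (Fin 2) ℂ) (su i (A * B)) =
              EM 1 1 (su i A) * EM 1 1 (su i B) := by
            rw [EM_mul, su_mul, Matrix.one_mul]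
            congr 1
            funext j
            exact (Matrix.one_mul _).symm
          rw [e1, Matrix.mul_assoc]
          exact hA _ (hB x hx) }
    have h1 : g i ∈ S := by
      refine (hU i).gen S ?_ (g i) (hg i)
      intro N hN s x hx
      rw [← M_exp_single ((hU i).nil N hN)]
      exact exp_mem hT (M_single_nil ((hU i).nil N hN)) (h i N hN) hx s
    exact h1
  have key : ∀ s : Finset (Fin k), EM 1 1 (fun j => if j ∈ s then g j else 1) * x ∈ T := by
    intro s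
    induction s using Finset.induction_on with
    | empty =>
      have e1 : (fun j => if j ∈ (∅ : Finset (Fin k)) then g j else 1) = 1 := by
        funext j
        simp
      rw [e1, EM_one, Matrix.one_mul]
      exact hx
    | insert i s hi ih =>
      have e1 : EM (1 : Matrix B₀ B₀ ℂ) (1 : Fin k → Matrix (Fin 2) (Fin 2) ℂ) (fun j => if j ∈ insert i s then g j else 1) =
          EM 1 1 (su i (g i)) * EM 1 1 (fun j => if j ∈ s then g j else 1) := by
        rw [EM_mul, Matrix.one_mul]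
        congr 1
        · funext j
          exact (Matrix.one_mul _).symm
        · funext j
          by_cases h : j = i
          · subst h
            rw [su_same, if_pos (Finset.mem_insert_self _ _), if_neg hi, Matrix.mul_one]
          · rw [su_ne h, Matrix.one_mul]
            by_cases h' : j ∈ s
            · rw [if_pos (Finset.mem_insert_of_mem h'), if_pos h']
            · rw [if_neg (fun hh => (Finset.mem_insert.1 hh).elim h h'), if_neg h']
      rw [e1, Matrix.mul_assoc]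
      exact one i _ ih
  have h1 := key Finset.univ
  have e1 : (fun j => if j ∈ (Finset.univ : Finset (Fin k)) then g j else 1) = g := by
    funext j
    simp
  rwa [e1] at h1

end

/-- **Stability.** -/
theorem stab' (m : ℕ) : ∃ d : ℕ, ∀ (B₀ : Type) [Fintype B₀] [DecidableEq B₀] (k : ℕ) (n : Fin k → ℕ),
    Fintype.card (IM B₀ n) ≤ m → ∀ (K : Subfield ℂ), (K : Set ℂ).Countable →
    ∀ (T : Set (Matrix (IM B₀ n) (IM B₀ n) ℂ)) (c₀ : Matrix B₀ B₀ ℂ) (l : Fin k → ℂ) (τ : ℂ)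
      (c : ∀ i, Matrix (Fin (n i)) (Fin (n i)) ℂ) (G : ∀ i, Matrix (Fin (n i)) (Fin (n i)) ℂ → Prop)
      (𝒩 : ∀ i, Set (Matrix (Fin (n i)) (Fin (n i)) ℂ)), IsSubtorsor K T → IsUnit c₀ → Transcendental K τ →
    (∀ i, IsUnit (c i)) → (∀ i, UG (G i) (𝒩 i)) → EM c₀ (fun i => kum (l i) τ) c ∈ T →
    (∀ (a : Fin k → ℂ) (g : ∀ i, Matrix (Fin (n i)) (Fin (n i)) ℂ), (∀ i, G i (g i)) →
      Rl K d (EM c₀ (fun i => kum (l i) τ) c) (EM c₀ (fun i => kum (l i + a i * τ) τ) fun i => g i * c i)) →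
    ∀ (a : Fin k → ℂ) (g : ∀ i, Matrix (Fin (n i)) (Fin (n i)) ℂ), (∀ i, G i (g i)) →
      ∀ x ∈ T, EM 1 (fun i => uu (a i)) g * x ∈ T := by
  classical
  obtain ⟨d₀, hd₀⟩ := abs_main m
  refine ⟨max d₀ (1 + m), ?_⟩
  intro B₀ _ _ k n hm K hK T c₀ l τ c G 𝒩 hT hc₀ hτ hc hU hcT hR
  have hkn : ∀ i, fl (kn B₀ n i) ∈ LL T := by
    refine kn_mem hT hc₀ hτ hc hcT fun a => ?_
    have h1 := hR a (fun i => 1) (fun i => (hU i).one)
    have h2 : EM (1 : Matrix B₀ B₀ ℂ) (fun i => uu (a i)) 1 * EM c₀ (fun i => kum (l i) τ) c =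
        EM c₀ (fun i => kum (l i + a i * τ) τ) fun i => 1 * c i := by
      rw [EM_mul, Matrix.one_mul]
      congr 1
      funext i
      exact uu_kum _ _ _
    rw [h2]
    exact h1.mono (by omega)
  have hsp : ∀ i, ∀ N ∈ 𝒩 i, fl (EM (0 : Matrix B₀ B₀ ℂ) 0 (Pi.single i N)) ∈ LL T := by
    have h1 := hd₀ (IM B₀ n) hm K hK T _ hT hcT {N | ∃ i, ∃ M ∈ 𝒩 i, N = Ms B₀ i M} (by
        rintro _ ⟨i, M, hM, rfl⟩
        exact M_single_nil ((hU i).nil M hM)) (by
        rintro _ ⟨i, M, hM, rfl⟩ t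
        rw [Ms_apply, M_exp_single ((hU i).nil M hM), EM_mul, Matrix.one_mul]
        have h2 := hR 0 (su i (IsNilpotent.exp (t • M))) (by
          intro j
          by_cases h : j = i
          · subst h
            rw [su_same]
            exact (hU j).mem M hM t
          · rw [su_ne h]
            exact (hU j).one)
        have h3 : (fun i : Fin k => (1 : Fin k → Matrix (Fin 2) (Fin 2) ℂ) i * kum (l i) τ) =
            fun i => kum (l i + (0 : Fin k → ℂ) i * τ) τ := by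
          funext j
          rw [Pi.one_apply, Matrix.one_mul, Pi.zero_apply, zero_mul, add_zero]
        rw [h3]
        exact h2.mono (le_max_left _ _)) (by
        rintro _ ⟨i, M, hM, rfl⟩
        have h2 := (hU i).perf M hM
        have h3 := Submodule.mem_map_of_mem (f := Ms B₀ (n := n) i) h2
        rw [Submodule.map_span] at h3
        refine Submodule.span_mono ?_ h3
        rintro _ ⟨_, ⟨A, hA, B, hB, rfl⟩, rfl⟩
        refine ⟨_, ⟨i, A, hA, rfl⟩, _, ⟨i, B, hB, rfl⟩, ?_⟩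
        rw [map_sub, Ms_mul, Ms_mul])
    intro i M hM
    exact h1 _ ⟨i, M, hM, rfl⟩
  intro a g hg x hx
  have h1 : EM (1 : Matrix B₀ B₀ ℂ) (fun i => uu (a i)) g = EM 1 (fun i => uu (a i)) 1 * EM 1 1 g := by
    rw [EM_mul, Matrix.one_mul]
    congr 1
    · funext j
      exact (Matrix.mul_one _).symm
    · funext j
      exact (Matrix.one_mul _).symm
  rw [h1, Matrix.mul_assoc]
  exact ug_stab hT hkn a (grp_stab hT hU hsp hg hx)

end Run7.h893.TO
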